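import Mathlib
import Pool.Agent.R53.SidonPar
import Pool.Agent.R53.SidonParB
import Pool.Agent.R53.SidonParC

/-!
# MP_f1f170_co (partial): norm obstructions for abelian groups attaining the Sidon bound

Throughout `m` is the size of a Sidon set in a finite abelian group of order `n`, and
`δ = n + m - m²` (so the group attains the bound iff `1 ≤ δ ≤ 2m`).
-/

namespace Pool.Agent.Results.MP_f1f170_co.NormObstruction

open Finset

/-- Sidon set: the pairwise sums, repetitions allowed, are distinct up to the order of the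
summands -/
def IsSidon {G : Type*} [AddCommGroup G] (A : Finset G) : Prop :=
  ∀ a ∈ A, ∀ b ∈ A, ∀ c ∈ A, ∀ d ∈ A, a + b = c + d → (a = c ∧ b = d) ∨ (a = d ∧ b = c)

/-- `G` attains the bound: it contains a Sidon set of size `m` where
`m² - m + 1 ≤ |G| ≤ m² + m` -/
def Attains (G : Type*) [AddCommGroup G] [Fintype G] : Prop :=
  ∃ A : Finset G, IsSidon A ∧ A.card ^ 2 + 1 ≤ Fintype.card G + A.card ∧
    Fintype.card G ≤ A.card ^ 2 + A.card

/-- `δ = |G| + |A| - |A|²` -/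
def defect {G : Type*} [Fintype G] (A : Finset G) : ℤ :=
  (Fintype.card G : ℤ) + A.card - (A.card : ℤ) ^ 2

theorem result :
    -- the number of `g` with `2g = 0` is at most `δ`
    (∀ (G : Type) [AddCommGroup G] [Fintype G] [DecidableEq G] (A : Finset G), IsSidon A →
      ((univ.filter (fun g : G => (2 : ℕ) • g = 0)).card : ℤ) ≤ defect A) ∧
    -- for every homomorphism `φ` onto `ZMod 2` some `c ≡ m (mod 2)` has
    -- `m - δ + 2|G[2] \ ker φ| ≤ c² ≤ m + δ - 2|G[2] ∩ ker φ|`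
    (∀ (G : Type) [AddCommGroup G] [Fintype G] [DecidableEq G] (A : Finset G), IsSidon A →
      ∀ φ : G →+ ZMod 2, Function.Surjective φ →
      ∃ c : ℤ, (2 : ℤ) ∣ c - A.card ∧
        (A.card : ℤ) - defect A
            + 2 * (univ.filter (fun g : G => ¬ (φ g = 0) ∧ (2 : ℕ) • g = 0)).card ≤ c ^ 2 ∧
        c ^ 2 ≤ A.card + defect A
            - 2 * (univ.filter (fun g : G => φ g = 0 ∧ (2 : ℕ) • g = 0)).card) ∧
    -- even order: `|c² - (m-1)| ≤ δ - 1` for some `c ≡ m (mod 2)`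
    (∀ (G : Type) [AddCommGroup G] [Fintype G] (A : Finset G), IsSidon A →
      Even (Fintype.card G) →
      ∃ c : ℤ, (2 : ℤ) ∣ c - A.card ∧ |c ^ 2 - (A.card - 1)| ≤ defect A - 1) ∧
    -- order `2 mod 4`: `|c² - m| ≤ δ - 2` for some `c ≡ m (mod 2)`
    (∀ (G : Type) [AddCommGroup G] [Fintype G] (A : Finset G), IsSidon A →
      Fintype.card G % 4 = 2 →
      ∃ c : ℤ, (2 : ℤ) ∣ c - A.card ∧ |c ^ 2 - A.card| ≤ defect A - 2) ∧
    -- an element of order 4: `|c² - (m-2)| ≤ δ - 2` for some `c ≡ m (mod 2)`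
    (∀ (G : Type) [AddCommGroup G] [Fintype G] (A : Finset G), IsSidon A →
      (∃ y : G, addOrderOf y = 4) →
      ∃ c : ℤ, (2 : ℤ) ∣ c - A.card ∧ |c ^ 2 - (A.card - 2)| ≤ defect A - 2) ∧
    -- order divisible by 3: some `L = x² + xy + y² ≡ m² (mod 3)` has
    -- `m - δ ≤ L` and `2L ≤ 2m + δ - 3|G[2]|`
    (∀ (G : Type) [AddCommGroup G] [Fintype G] [DecidableEq G] (A : Finset G), IsSidon A →
      3 ∣ Fintype.card G →
      ∃ x y : ℤ, (3 : ℤ) ∣ (A.card : ℤ) ^ 2 - (x ^ 2 + x * y + y ^ 2) ∧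
        (A.card : ℤ) - defect A ≤ x ^ 2 + x * y + y ^ 2 ∧
        2 * (x ^ 2 + x * y + y ^ 2) ≤ 2 * A.card + defect A
          - 3 * (univ.filter (fun g : G => (2 : ℕ) • g = 0)).card) ∧
    -- no abelian group of even order `n`, `k²(k²+1) + 2 ≤ n ≤ k²(k²+1) + 2k - 2`, attains
    (∀ (k : ℕ) (G : Type) [AddCommGroup G] [Fintype G], Even (Fintype.card G) →
      k ^ 2 * (k ^ 2 + 1) + 2 ≤ Fintype.card G →
      Fintype.card G + 2 ≤ k ^ 2 * (k ^ 2 + 1) + 2 * k → ¬ Attains G) ∧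
    -- order `m² - m + 3` with `m ≢ 2 (mod 3)`: `m` or `m - 3` is of the form `x² + xy + y²`
    (∀ (m : ℕ) (G : Type) [AddCommGroup G] [Fintype G], 2 ≤ m → m % 3 ≠ 2 →
      Fintype.card G + m = m ^ 2 + 3 → Attains G →
      ∃ x y : ℤ, x ^ 2 + x * y + y ^ 2 = m ∨ x ^ 2 + x * y + y ^ 2 = m - 3) ∧
    -- in particular none of these odd orders is attained
    (∀ (m : ℕ) (G : Type) [AddCommGroup G] [Fintype G], m % 4 = 2 → m % 25 = 8 → m % 3 ≠ 2 →
      Fintype.card G + m = m ^ 2 + 3 → ¬ Attains G) := by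
  have main8 : ∀ (m : ℕ) (G : Type) [AddCommGroup G] [Fintype G], 2 ≤ m → m % 3 ≠ 2 →
      Fintype.card G + m = m ^ 2 + 3 → Attains G →
      ∃ x y : ℤ, x ^ 2 + x * y + y ^ 2 = m ∨ x ^ 2 + x * y + y ^ 2 = m - 3 := by
    intro m G _ _ hm2 hm3 hn ⟨A, hA, h1, h2⟩
    have hAm : A.card = m := R53.SidonPar.unique_m h1 h2 (by omega) (by omega)
    subst hAm
    exact R53.SidonPar.loesch hA hm3 hn
  refine ⟨?_, ?_, ?_, ?_, ?_, ?_, ?_, main8, ?_⟩
  · intro G _ _ _ A hA
    have h := R53.SidonPar.count_all (A := A) hA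
    have h1 : A.card * (A.card - 1) + A.card = A.card ^ 2 := by
      rcases Nat.eq_zero_or_pos A.card with h0 | h0
      · rw [h0]; rfl
      · obtain ⟨t, ht⟩ := Nat.exists_eq_add_of_lt h0
        rw [ht]
        have : 0 + t + 1 - 1 = t := by omega
        rw [this]; ring
    have h2 : A.card ^ 2 + (univ.filter (fun g : G => (2 : ℕ) • g = 0)).card
        ≤ Fintype.card G + A.card := by omega
    have h3 : (A.card : ℤ) ^ 2 + (univ.filter (fun g : G => (2 : ℕ) • g = 0)).card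
        ≤ Fintype.card G + A.card := by exact_mod_cast h2
    unfold defect
    linarith
  · intro G _ _ _ A hA φ hφ
    obtain ⟨c, h1, h2, h3⟩ := R53.SidonPar.parity (A := A) hA φ hφ
    have h2' : (A.card : ℤ) ^ 2
        + 2 * (univ.filter (fun g : G => ¬ (φ g = 0) ∧ (2 : ℕ) • g = 0)).card
        ≤ Fintype.card G + (c : ℤ) ^ 2 := by exact_mod_cast h2
    have h3' : (c : ℤ) ^ 2 + (A.card : ℤ) ^ 2
        + 2 * (univ.filter (fun g : G => φ g = 0 ∧ (2 : ℕ) • g = 0)).card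
        ≤ Fintype.card G + 2 * A.card := by exact_mod_cast h3
    unfold defect
    exact ⟨c, by omega, by linarith, by linarith⟩
  · intro G _ _ A hA hev
    obtain ⟨c, h1, h2, h3⟩ := R53.SidonPar.even_cond (A := A) hA hev
    have h2' : (A.card : ℤ) ^ 2 ≤ Fintype.card G + (c : ℤ) ^ 2 := by exact_mod_cast h2
    have h3' : (c : ℤ) ^ 2 + (A.card : ℤ) ^ 2 + 2 ≤ Fintype.card G + 2 * A.card := by
      exact_mod_cast h3
    unfold defect
    refine ⟨c, by omega, ?_⟩
    rw [abs_le]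
    exact ⟨by linarith, by linarith⟩
  · intro G _ _ A hA hev
    obtain ⟨c, h1, h2, h3⟩ := R53.SidonPar.two_mod_four (A := A) hA hev
    have h2' : (A.card : ℤ) ^ 2 + 2 ≤ Fintype.card G + (c : ℤ) ^ 2 := by exact_mod_cast h2
    have h3' : (c : ℤ) ^ 2 + (A.card : ℤ) ^ 2 + 2 ≤ Fintype.card G + 2 * A.card := by
      exact_mod_cast h3
    unfold defect
    refine ⟨c, by omega, ?_⟩
    rw [abs_le]
    exact ⟨by linarith, by linarith⟩
  · intro G _ _ A hA ⟨y, hy⟩
    obtain ⟨c, h1, h2, h3⟩ := R53.SidonPar.order_four (A := A) hA y hy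
    have h2' : (A.card : ℤ) ^ 2 ≤ Fintype.card G + (c : ℤ) ^ 2 := by exact_mod_cast h2
    have h3' : (c : ℤ) ^ 2 + (A.card : ℤ) ^ 2 + 4 ≤ Fintype.card G + 2 * A.card := by
      exact_mod_cast h3
    unfold defect
    refine ⟨c, by omega, ?_⟩
    rw [abs_le]
    exact ⟨by linarith, by linarith⟩
  · intro G _ _ _ A hA h3
    obtain ⟨x, y, h1, h2, h4⟩ := R53.SidonPar.three_cond (A := A) hA h3
    unfold defect
    exact ⟨x, y, h1, by linarith, by linarith⟩
  · intro k G _ _ hev hlb hub ⟨A, hA, h1, h2⟩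
    have e1 : (k ^ 2 + 1) ^ 2 = k ^ 2 * (k ^ 2 + 1) + k ^ 2 + 1 := by ring
    have hk : k ≤ k ^ 2 := Nat.le_self_pow (by norm_num) k
    have hAm : A.card = k ^ 2 + 1 :=
      R53.SidonPar.unique_m h1 h2 (by rw [e1]; omega) (by rw [e1]; omega)
    exact R53.SidonPar.family (A := A) hA hev hub hAm
  · intro m G _ _ h4 h25 h3 hn hatt
    obtain ⟨x, y, h | h⟩ := main8 m G (by omega) h3 hn hatt
    · exact R53.SidonPar.no4 x y (by rw [h]; omega)
    · exact R53.SidonPar.no25 x y (by rw [h]; omega)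

end Pool.Agent.Results.MP_f1f170_co.NormObstruction
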